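import Mathlib
import Pool.Agent.Helper503.Gp.Triv

set_option autoImplicit false

open Metric Set Filter Topology Complex

namespace Pool.Agent.Results.MP_264cca_an.TrivialPart

/-! ### Definitions used in the statement -/

/-- `f` is a bounded analytic function on the open unit disc. -/
def BddAnalytic (f : ball (0 : ℂ) 1 → ℂ) : Prop :=
  (∃ F : ℂ → ℂ, DifferentiableOn ℂ F (ball (0 : ℂ) 1) ∧ ∀ z : ball (0 : ℂ) 1, f z = F z) ∧
    ∃ C : ℝ, ∀ z, ‖f z‖ ≤ C

theorem BddAnalytic.mul {f g : ball (0 : ℂ) 1 → ℂ} (hf : BddAnalytic f) (hg : BddAnalytic g) :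
    BddAnalytic (f * g) := by
  obtain ⟨⟨F, hF, hfF⟩, C, hC⟩ := hf
  obtain ⟨⟨G, hG, hgG⟩, D, hD⟩ := hg
  refine ⟨⟨F * G, hF.mul hG, fun z => by simp [hfF, hgG]⟩, C * D, fun z => ?_⟩
  rw [Pi.mul_apply, norm_mul]
  exact mul_le_mul (hC z) (hD z) (norm_nonneg _) ((norm_nonneg _).trans (hC z))

theorem BddAnalytic.add {f g : ball (0 : ℂ) 1 → ℂ} (hf : BddAnalytic f) (hg : BddAnalytic g) :
    BddAnalytic (f + g) := by
  obtain ⟨⟨F, hF, hfF⟩, C, hC⟩ := hf
  obtain ⟨⟨G, hG, hgG⟩, D, hD⟩ := hg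
  refine ⟨⟨F + G, hF.add hG, fun z => by simp [hfF, hgG]⟩, C + D, fun z => ?_⟩
  exact (norm_add_le _ _).trans (add_le_add (hC z) (hD z))

/-- The algebra `H^∞` of bounded analytic functions on the open unit disc. -/
def Hinf : Subalgebra ℂ (ball (0 : ℂ) 1 → ℂ) where
  carrier := {f | BddAnalytic f}
  mul_mem' := BddAnalytic.mul
  add_mem' := BddAnalytic.add
  algebraMap_mem' := fun c =>
    ⟨⟨fun _ => c, differentiableOn_const c, fun z => by simp⟩, ‖c‖, fun z => by simp⟩

/-- The maximal ideal space of `H^∞`: all unital multiplicative linear functionals. -/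
abbrev MaxSpace : Type := Hinf →ₐ[ℂ] ℂ

/-- The Gelfand (weak-star) topology on the maximal ideal space. -/
noncomputable instance gelfandTopology : TopologicalSpace MaxSpace :=
  TopologicalSpace.induced (fun (m : MaxSpace) (f : Hinf) => m f) inferInstance

/-- The pseudohyperbolic distance `ρ (x, y) = sup {|y f| : ‖f‖ ≤ 1, x f = 0}`. -/
noncomputable def rho (x y : MaxSpace) : ℝ :=
  sSup {t : ℝ | ∃ f : Hinf, (∀ z, ‖(f : ball (0 : ℂ) 1 → ℂ) z‖ ≤ 1) ∧ x f = 0 ∧ t = ‖y f‖}

/-- The Gleason part of `x`. -/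
def part (x : MaxSpace) : Set MaxSpace := {y | rho x y < 1}

/-- `S` is a closed boundary for the algebra of restrictions of `H^∞` to `P`: it is a closed
subset of the closure of `P`, and the supremum of `|f|` over `S` is at least its supremum
over `P`, for every `f`. -/
def IsClosedBoundary (P S : Set MaxSpace) : Prop :=
  S ⊆ closure P ∧ IsClosed S ∧
    ∀ f : Hinf, ∀ x ∈ P, ∀ ε : ℝ, 0 < ε → ∃ y ∈ S, ‖x f‖ < ‖y f‖ + ε

/-- The Shilov boundary of the algebra of restrictions of `H^∞` to `P`: the intersection of all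
closed boundaries. -/
def shilov (P : Set MaxSpace) : Set MaxSpace := {x | ∀ S, IsClosedBoundary P S → x ∈ S}

/-! ### Translation -/

open Pool.Agent.Helper503.Gp

theorem closure_iff (y : MaxSpace) (P : Set MaxSpace) :
    y ∈ closure P ↔ ∀ s : Finset Hinf, ∀ ε : ℝ, 0 < ε → ∃ x ∈ P, ∀ f ∈ s, ‖x f - y f‖ < ε := by
  have hind : IsInducing (fun (m : MaxSpace) (f : Hinf) => m f) := ⟨rfl⟩
  rw [hind.closure_eq_preimage_closure_image, mem_preimage]
  constructor
  · intro h s ε hε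
    rw [_root_.mem_closure_iff] at h
    obtain ⟨z, hz1, hz2⟩ := h {z | ∀ f ∈ s, ‖z f - y f‖ < ε} (by
      have : {z : Hinf → ℂ | ∀ f ∈ s, ‖z f - y f‖ < ε} =
          ⋂ f ∈ s, {z : Hinf → ℂ | ‖z f - y f‖ < ε} := by
        ext z; simp
      rw [this]
      refine isOpen_biInter_finset fun f _ => ?_
      exact isOpen_lt (((continuous_apply f).sub continuous_const).norm) continuous_const)
      (fun f _ => by rw [sub_self, norm_zero]; exact hε)
    obtain ⟨x, hx, rfl⟩ := hz2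
    exact ⟨x, hx, hz1⟩
  · intro h
    rw [_root_.mem_closure_iff]
    intro o ho hyo
    rw [isOpen_pi_iff] at ho
    obtain ⟨I, u, hu, hIo⟩ := ho _ hyo
    have hε : ∃ ε : ℝ, 0 < ε ∧ ∀ f ∈ I, ball (y f) ε ⊆ u f := by
      clear hIo
      induction I using Finset.cons_induction with
      | empty => exact ⟨1, one_pos, fun f hf => absurd hf (Finset.notMem_empty f)⟩
      | cons a J ha ih =>
        obtain ⟨ε, hε, h1⟩ := ih fun f hf => hu f (Finset.mem_cons_of_mem hf)
        obtain ⟨δ, hδ, h2⟩ := Metric.isOpen_iff.1 (hu a (Finset.mem_cons_self a J)).1 _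
          (hu a (Finset.mem_cons_self a J)).2
        refine ⟨min ε δ, lt_min hε hδ, fun f hf => ?_⟩
        rcases Finset.mem_cons.1 hf with rfl | hf
        · exact (ball_subset_ball (min_le_right _ _)).trans h2
        · exact (ball_subset_ball (min_le_left _ _)).trans (h1 f hf)
    obtain ⟨ε, hε, h1⟩ := hε
    obtain ⟨x, hx, hxf⟩ := h I ε hε
    refine ⟨fun f => x f, hIo fun f hf => h1 f hf ?_, x, hx, rfl⟩
    rw [mem_ball, dist_eq_norm]
    exact hxf f hf

/-- restriction of a function on the plane -/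
def res (f : ℂ → ℂ) (hf : f ∈ HI) : Hinf :=
  ⟨fun z => f z, ⟨f, hf.1, fun _ => rfl⟩, by
    obtain ⟨C, hC⟩ := hf.2
    exact ⟨C, fun z => hC z z.2⟩⟩

open Classical in
/-- extension by zero -/
noncomputable def ex (f : Hinf) (z : ℂ) : ℂ :=
  if h : z ∈ ball (0 : ℂ) 1 then (f : ball (0 : ℂ) 1 → ℂ) ⟨z, h⟩ else 0

theorem ex_apply (f : Hinf) {z : ℂ} (hz : z ∈ ball (0 : ℂ) 1) :
    ex f z = (f : ball (0 : ℂ) 1 → ℂ) ⟨z, hz⟩ := by
  rw [ex, dif_pos hz]

theorem ex_mem (f : Hinf) : ex f ∈ HI := by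
  obtain ⟨⟨F, hF, hfF⟩, C, hC⟩ := f.2
  refine ⟨hF.congr fun z hz => ?_, C, fun z hz => ?_⟩
  · rw [ex_apply f hz]; exact hfF ⟨z, hz⟩
  · rw [ex_apply f hz]; exact hC ⟨z, hz⟩

theorem res_ex (f : Hinf) : res (ex f) (ex_mem f) = f := by
  apply Subtype.ext
  funext z
  exact ex_apply f z.2

open Classical in
/-- the functional on plane functions attached to a character -/
noncomputable def up (x : MaxSpace) (f : ℂ → ℂ) : ℂ := if h : f ∈ HI then x (res f h) else 0

theorem up_apply (x : MaxSpace) {f : ℂ → ℂ} (h : f ∈ HI) : up x f = x (res f h) := by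
  rw [up, dif_pos h]

theorem up_ex (x : MaxSpace) (f : Hinf) : up x (ex f) = x f := by
  rw [up_apply x (ex_mem f), res_ex]

open Classical in
/-- restriction, with junk value off the algebra -/
noncomputable def resd (f : ℂ → ℂ) : Hinf := if h : f ∈ HI then res f h else 0

theorem resd_apply {f : ℂ → ℂ} (h : f ∈ HI) : resd f = res f h := by
  rw [resd, dif_pos h]

theorem up_char (x : MaxSpace) : IsChar (up x) := by
  refine ⟨?_, fun f hf g hg => ⟨?_, ?_, fun h => ?_⟩, fun c f hf => ?_, fun f hf => ?_⟩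
  · rw [up_apply x char_le_one]
    exact map_one x
  · rw [up_apply x hf, up_apply x hg, up_apply x (char_le_add hf hg), ← map_add]
    rfl
  · rw [up_apply x hf, up_apply x hg, up_apply x (char_le_mul hf hg), ← map_mul]
    rfl
  · rw [up_apply x hf, up_apply x hg]
    congr 1
    apply Subtype.ext
    funext z
    exact h z.2
  · rw [up_apply x hf, up_apply x (char_le_smul c hf), ← smul_eq_mul, ← map_smul]
    rfl
  · rw [up, dif_neg hf]

theorem ch_eqOn {φ : (ℂ → ℂ) → ℂ} (hφ : IsChar φ) {f g : ℂ → ℂ} (hf : f ∈ HI) (hg : g ∈ HI)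
    (h : ∀ z ∈ ball (0 : ℂ) 1, f z = g z) : φ f = φ g := (hφ.2.1 f hf g hg).2.2 h

/-- the character attached to a functional on plane functions -/
noncomputable def dn (φ : (ℂ → ℂ) → ℂ) (hφ : IsChar φ) : MaxSpace where
  toFun f := φ (ex f)
  map_one' := by
    rw [← hφ.1]
    exact ch_eqOn hφ (ex_mem _) char_le_one fun z hz => by rw [ex_apply _ hz]; rfl
  map_mul' f g := by
    rw [← (hφ.2.1 _ (ex_mem f) _ (ex_mem g)).2.1]
    refine ch_eqOn hφ (ex_mem _) (char_le_mul (ex_mem f) (ex_mem g)) fun z hz => ?_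
    rw [ex_apply _ hz, Pi.mul_apply, ex_apply _ hz, ex_apply _ hz]
    rfl
  map_zero' := by
    have h0 : (0 : ℂ) • (1 : ℂ → ℂ) ∈ HI := char_le_smul _ char_le_one
    have h1 := hφ.2.2.1 0 1 char_le_one
    rw [zero_mul] at h1
    refine (ch_eqOn hφ (ex_mem _) h0 fun z hz => ?_).trans h1
    rw [ex_apply _ hz]
    simp
  map_add' f g := by
    rw [← (hφ.2.1 _ (ex_mem f) _ (ex_mem g)).1]
    refine ch_eqOn hφ (ex_mem _) (char_le_add (ex_mem f) (ex_mem g)) fun z hz => ?_
    rw [ex_apply _ hz, Pi.add_apply, ex_apply _ hz, ex_apply _ hz]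
    rfl
  commutes' c := by
    have h0 : c • (1 : ℂ → ℂ) ∈ HI := char_le_smul _ char_le_one
    have h1 := hφ.2.2.1 c 1 char_le_one
    rw [hφ.1, mul_one] at h1
    refine (ch_eqOn hφ (ex_mem _) h0 fun z hz => ?_).trans h1
    rw [ex_apply _ hz]
    simp

theorem up_dn {φ : (ℂ → ℂ) → ℂ} (hφ : IsChar φ) : up (dn φ hφ) = φ := by
  refine tv_ext (up_char _) hφ fun f hf => ?_
  rw [up_apply _ hf]
  change φ (ex (res f hf)) = φ f
  refine ch_eqOn hφ (ex_mem _) hf fun z hz => ?_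
  rw [ex_apply _ hz]
  rfl

theorem up_inj {x y : MaxSpace} (h : up x = up y) : x = y := by
  apply AlgHom.ext
  intro f
  rw [← up_ex x, ← up_ex y, h]

theorem rho_lt_iff (x y : MaxSpace) : rho x y < 1 ↔ Gl (up x) (up y) := by
  have hbdd : BddAbove {t : ℝ | ∃ f : Hinf, (∀ z, ‖(f : ball (0 : ℂ) 1 → ℂ) z‖ ≤ 1) ∧
      x f = 0 ∧ t = ‖y f‖} := by
    refine ⟨1, ?_⟩
    rintro t ⟨f, hf, -, rfl⟩
    rw [← up_ex]
    exact char_le (up_char y) (ex_mem f) fun z hz => by rw [ex_apply f hz]; exact hf _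
  have h0 : (0 : ℝ) ∈ {t : ℝ | ∃ f : Hinf, (∀ z, ‖(f : ball (0 : ℂ) 1 → ℂ) z‖ ≤ 1) ∧
      x f = 0 ∧ t = ‖y f‖} := ⟨0, fun z => by simp, map_zero x, by rw [map_zero, norm_zero]⟩
  constructor
  · intro h
    refine tv_gl_of_rho (up_char x) (up_char y) (r := rho x y) (le_csSup hbdd h0) h ?_
    intro g hg hg1 hxg
    refine le_csSup hbdd ⟨res g hg, fun z => hg1 z z.2, ?_, ?_⟩
    · rw [← up_apply x hg]; exact hxg
    · rw [up_apply y hg]
  · intro h
    obtain ⟨r, hr0, hr1, hr⟩ := gl_rho (up_char x) (up_char y) h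
    refine lt_of_le_of_lt (csSup_le ⟨0, h0⟩ ?_) hr1
    rintro t ⟨f, hf, hxf, rfl⟩
    rw [← up_ex]
    refine hr _ (ex_mem f) (fun z hz => ?_) (by rw [up_ex]; exact hxf)
    rw [ex_apply f hz]; exact hf _

/-! ### The result -/

/-- There is a point `m` of the maximal ideal space of `H^∞` whose Gleason part is trivial and
which lies in the Shilov boundary of `H^∞` restricted to `P` for no nontrivial Gleason part `P`. -/
theorem result :
    ∃ m : MaxSpace, part m = {m} ∧ ∀ x : MaxSpace, part x ≠ {x} → m ∉ shilov (part x) := by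
  obtain ⟨μ, hμ, htriv, hmain⟩ := tv_main
  refine ⟨dn μ hμ, ?_, fun x hx hsh => ?_⟩
  · ext y
    rw [mem_singleton_iff]
    constructor
    · intro hy
      have h1 := (rho_lt_iff _ _).1 hy
      rw [up_dn] at h1
      apply up_inj
      rw [up_dn]
      exact htriv _ (up_char y) h1
    · rintro rfl
      exact (rho_lt_iff _ _).2 (tv_gl_refl _)
  · have hxx : x ∈ part x := (rho_lt_iff _ _).2 (tv_gl_refl _)
    have hex : ∃ y ∈ part x, y ≠ x := by
      by_contra hcon
      push Not at hcon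
      exact hx (Set.eq_singleton_iff_unique_mem.2 ⟨hxx, hcon⟩)
    obtain ⟨y, hy, hyx⟩ := hex
    obtain ⟨S, hS1, hS2, hS3, hS4⟩ := hmain (up x) (up_char x)
      ⟨up y, up_char y, (rho_lt_iff _ _).1 hy, fun h => hyx (up_inj h)⟩
    have hmem := hsh {z | up z ∈ S} ⟨fun z hz => ?_, ?_, fun f z hz ε hε => ?_⟩
    · apply hS4
      have h2 : up (dn μ hμ) ∈ S := hmem
      rwa [up_dn] at h2
    · rw [closure_iff]
      intro s ε hε
      classical
      obtain ⟨ψ, ⟨hψ, hg⟩, h3⟩ := (hS1 _ hz).2 (s.image ex) ε hε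
      refine ⟨dn ψ hψ, (rho_lt_iff _ _).2 (by rw [up_dn]; exact hg), fun f hf => ?_⟩
      have h4 := h3 (ex f) (Finset.mem_image_of_mem ex hf)
      rw [up_ex] at h4
      exact h4
    · apply isClosed_of_closure_subset
      intro z hz
      rw [closure_iff] at hz
      refine hS2 _ (up_char z) fun s ε hε => ?_
      classical
      obtain ⟨w, hw, h3⟩ := hz (s.image resd) ε hε
      refine ⟨up w, hw, fun f hf => ?_⟩
      by_cases hfH : f ∈ HI
      · rw [up_apply _ hfH, up_apply _ hfH]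
        have h4 := h3 (resd f) (Finset.mem_image_of_mem resd hf)
        rwa [resd_apply hfH] at h4
      · rw [(up_char w).2.2.2 f hfH, (up_char z).2.2.2 f hfH, sub_self, norm_zero]
        exact hε
    · obtain ⟨χ, hχ, h5⟩ := hS3 (ex f) (ex_mem f) (up z) (up_char z) ((rho_lt_iff _ _).1 hz) ε hε
      refine ⟨dn χ (hS1 χ hχ).1, ?_, ?_⟩
      · change up (dn χ (hS1 χ hχ).1) ∈ S
        rw [up_dn]; exact hχ
      · rw [up_ex] at h5
        exact h5

end Pool.Agent.Results.MP_264cca_an.TrivialPart
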